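import Pool.Agent.H983R2.ONJ.GeoA
import Pool.Agent.H983R2.ONJ.Gib2
import Pool.Agent.H983R2.FK.Exit

/-! # Task EXIT: the exit inequality on the torus (helper269), instance of
`Pool.Agent.H983R2.FK.Sys.exit` -/

set_option autoImplicit false

noncomputable section

namespace Pool.Agent.H983R2.ONJ

open MeasureTheory Pool.Agent.H5R2.ON Pool.Agent.H717R2.ON3

namespace Aux269

/-! ### the reflection of one component (as in helper899's file) -/

/-- reflection of the component `i`, as a linear isometry -/
def refE {N : ℕ} (i : Fin N) : EuclideanSpace ℝ (Fin N) ≃ₗᵢ[ℝ] EuclideanSpace ℝ (Fin N) :=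
  LinearIsometryEquiv.piLpCongrRight 2 fun j =>
    if j = i then LinearIsometryEquiv.neg ℝ else LinearIsometryEquiv.refl ℝ ℝ

theorem refE_apply {N : ℕ} (i : Fin N) (v : EuclideanSpace ℝ (Fin N)) (j : Fin N) :
    refE i v j = if j = i then -(v j) else v j := by
  unfold refE
  rw [LinearIsometryEquiv.piLpCongrRight_apply]
  simp only
  by_cases h : j = i
  · rw [if_pos h, if_pos h]; rfl
  · rw [if_neg h, if_neg h]; rfl

/-- reflection of the component `i` on the sphere -/
def refS {N : ℕ} (i : Fin N) : Sph N ≃ₜ Sph N where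
  toFun s := ⟨refE i s, by simp⟩
  invFun s := ⟨(refE i).symm s, by simp⟩
  left_inv s := by ext1; simp
  right_inv s := by ext1; simp
  continuous_toFun := by fun_prop
  continuous_invFun := by fun_prop

theorem cc_refS {N : ℕ} (i : Fin N) (s : Sph N) : cc i (refS i s) = -cc i s := by
  have h := refE_apply i (s : EuclideanSpace ℝ (Fin N)) i
  rw [if_pos rfl] at h
  exact h

theorem mp_refS {N : ℕ} (i : Fin N) : MeasurePreserving (refS i) (unif N) (unif N) :=
  ⟨(refS i).continuous.measurable, map_unif N (refE i) (refS i) fun _ => rfl⟩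

theorem continuous_cc {N : ℕ} (i : Fin N) : Continuous (cc i) := by
  unfold cc
  fun_prop

theorem abs_cc_le {N : ℕ} (i : Fin N) (s : Sph N) : |cc i s| ≤ 1 := by
  have h1 : ‖(s : EuclideanSpace ℝ (Fin N))‖ = 1 := by simp
  have h2 := PiLp.norm_apply_le (s : EuclideanSpace ℝ (Fin N)) i
  rw [h1, Real.norm_eq_abs] at h2
  exact h2

/-- scalar product of the other components -/
def qq {N : ℕ} (i : Fin N) (u v : Sph N) : ℝ :=
  inner ℝ (u : EuclideanSpace ℝ (Fin N)) (v : EuclideanSpace ℝ (Fin N)) - cc i u * cc i v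

theorem qq_eq {N : ℕ} (i : Fin N) (u v : Sph N) :
    qq i u v = ∑ j ∈ Finset.univ.erase i, cc j u * cc j v := by
  unfold qq
  rw [Finset.sum_erase_eq_sub (Finset.mem_univ i)]
  congr 1
  rw [PiLp.inner_apply]
  refine Finset.sum_congr rfl fun j _ => ?_
  simp only [RCLike.inner_apply, conj_trivial, cc]
  ring

theorem cc_refS_ne {N : ℕ} {i j : Fin N} (h : j ≠ i) (s : Sph N) :
    cc j (refS i s) = cc j s := by
  have h2 := refE_apply i (s : EuclideanSpace ℝ (Fin N)) j
  rw [if_neg h] at h2
  exact h2

theorem qq_ref {N : ℕ} (i : Fin N) (P Q : Prop) [Decidable P] [Decidable Q] (u v : Sph N) :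
    qq i (if P then refS i u else u) (if Q then refS i v else v) = qq i u v := by
  rw [qq_eq, qq_eq]
  refine Finset.sum_congr rfl fun j hj => ?_
  have hji := Finset.ne_of_mem_erase hj
  congr 1
  · split_ifs
    · exact cc_refS_ne hji u
    · rfl
  · split_ifs
    · exact cc_refS_ne hji v
    · rfl

/-- the weight of the other components -/
def w0 {N L : ℕ} [NeZero L] (c : Tor L × Tor L → ℝ) (i : Fin N) (S : Conf N L) : ℝ :=
  Real.exp (∑ e, c e * qq i (S e.1) (S e.2))

theorem continuous_w0 {N L : ℕ} [NeZero L] (c : Tor L × Tor L → ℝ) (i : Fin N) :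
    Continuous (w0 c i : Conf N L → ℝ) := by
  have h : ∀ x y : Tor L, Continuous fun S : Conf N L => qq i (S x) (S y) := by
    intro x y
    unfold qq
    refine Continuous.sub ?_ ?_
    · exact Continuous.inner (continuous_subtype_val.comp (continuous_apply x))
        (continuous_subtype_val.comp (continuous_apply y))
    · exact ((continuous_cc i).comp (continuous_apply x)).mul
        ((continuous_cc i).comp (continuous_apply y))
  unfold w0
  refine Real.continuous_exp.comp ?_
  exact continuous_finsetSum _ fun e _ => continuous_const.mul (h _ _)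

theorem bdd_of_continuous {N L : ℕ} [NeZero L] {f : Conf N L → ℝ} (hf : Continuous f) :
    ∃ C, ∀ s, |f s| ≤ C := by
  obtain ⟨C, hC⟩ := isCompact_univ.exists_bound_of_continuousOn (f := f) hf.continuousOn
  exact ⟨C, fun s => by rw [← Real.norm_eq_abs]; exact hC s (Set.mem_univ s)⟩

/-- the ferromagnetic system of the component `i` -/
def sysJ {N L : ℕ} [NeZero L] (hN : N ≠ 0) {c : Tor L × Tor L → ℝ}
    (hc : ∀ e, 0 ≤ c e) (i : Fin N) : FK.Sys (Tor L) (Sph N) where
  ν := unif N
  prob := unif_isProbabilityMeasure N hN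
  τ := refS i
  mp := mp_refS i
  a := cc i
  ma := (continuous_cc i).measurable
  a1 := abs_cc_le i
  odd := cc_refS i
  k := c
  k0 := hc
  g := w0 c i
  mg := (continuous_w0 c i).measurable
  g0 := fun s => (Real.exp_pos _).le
  gb := by
    obtain ⟨C, hC⟩ := bdd_of_continuous (continuous_w0 c i)
    exact ⟨C, fun s => (le_abs_self _).trans (hC s)⟩
  gflip := by
    intro C s
    unfold w0
    congr 1
    refine Finset.sum_congr rfl fun e _ => ?_
    rw [qq_ref]

theorem wt_eq {N L : ℕ} [NeZero L] (hN : N ≠ 0) {c : Tor L × Tor L → ℝ}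
    (hc : ∀ e, 0 ≤ c e) (i : Fin N) (S : Conf N L) :
    (sysJ hN hc i).wt S = Real.exp (pS c S) := by
  unfold FK.Sys.wt FK.Sys.x sysJ w0 pS qq
  simp only
  rw [← Real.exp_add, ← Finset.sum_add_distrib]
  congr 1
  refine Finset.sum_congr rfl fun e _ => ?_
  ring

theorem I_eq {N L : ℕ} [NeZero L] (hN : N ≠ 0) {c : Tor L × Tor L → ℝ}
    (hc : ∀ e, 0 ≤ c e) (i : Fin N) (F : Conf N L → ℝ) :
    (sysJ hN hc i).I F = ∫ S, F S * Real.exp (pS c S) ∂(prior N L) := by
  unfold FK.Sys.I
  have h : (sysJ hN hc i).π = prior N L := rfl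
  rw [h]
  refine integral_congr_ae (Filter.Eventually.of_forall fun S => ?_)
  simp only
  rw [wt_eq]

theorem Z_pos {N L : ℕ} [NeZero L] (hN : N ≠ 0) (c : Tor L × Tor L → ℝ) :
    0 < ∫ S : Conf N L, Real.exp (pS c S) ∂(prior N L) := by
  have := prior_isProbabilityMeasure N L hN
  exact integral_exp_pos (integrable_prior N L (Real.continuous_exp.comp (continuous_pS c)))

theorem splice_univ {N L : ℕ} [NeZero L] (S η : Conf N L) : splice Finset.univ S η = S := by
  funext x
  unfold splice
  rw [if_pos (Finset.mem_univ x)]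

end Aux269

open Aux269

theorem corJ_nonneg {N L : ℕ} [NeZero L] (hN : N ≠ 0) {c : Tor L × Tor L → ℝ}
    (hc : ∀ e, 0 ≤ c e) (i : Fin N) (x y : Tor L) : 0 ≤ corJ c i x y := by
  classical
  unfold corJ
  refine div_nonneg ?_ (Z_pos hN c).le
  have h1 := I_eq hN hc i (fun S => cc i (S x) * cc i (S y))
  rw [← h1]
  have h2 := (sysJ hN hc i).two_point x y
  have h3 : (sysJ hN hc i).I (fun S => cc i (S x) * cc i (S y)) =
      (sysJ hN hc i).I (fun s => (sysJ hN hc i).a (s x) * (sysJ hN hc i).a (s y)) := rfl
  rw [h3, h2]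
  refine Finset.sum_nonneg fun ω _ => ?_
  split_ifs
  · exact integral_nonneg fun s => mul_nonneg (mul_nonneg (abs_nonneg _) (abs_nonneg _))
      ((sysJ hN hc i).W_nonneg ω s)
  · exact le_rfl

theorem corJ_le_one {N L : ℕ} [NeZero L] (hN : N ≠ 0) (c : Tor L × Tor L → ℝ)
    (i : Fin N) (x y : Tor L) : corJ c i x y ≤ 1 := by
  unfold corJ
  rw [div_le_one (Z_pos hN c)]
  have hcx : Continuous fun S : Conf N L => cc i (S x) :=
    (continuous_cc i).comp (continuous_apply x)
  have hcy : Continuous fun S : Conf N L => cc i (S y) :=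
    (continuous_cc i).comp (continuous_apply y)
  have he : Continuous fun S : Conf N L => Real.exp (pS c S) :=
    Real.continuous_exp.comp (continuous_pS c)
  refine integral_mono (integrable_prior N L ((hcx.mul hcy).mul he)) (integrable_prior N L he)
    fun S => ?_
  simp only
  have h1 : cc i (S x) * cc i (S y) ≤ 1 := by
    refine (le_abs_self _).trans ?_
    rw [abs_mul]
    exact mul_le_one₀ (abs_cc_le i _) (abs_nonneg _) (abs_cc_le i _)
  have h2 := Real.exp_pos (pS c S)
  nlinarith

theorem corJ_exit {N L : ℕ} [NeZero L] (hN : N ≠ 0) {c : Tor L × Tor L → ℝ}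
    (hc : ∀ e, 0 ≤ c e) (i : Fin N) (p y : Tor L) (R m : ℝ) (hR : 0 < R)
    (hy : R < tnorm (y - p)) (hm0 : 0 ≤ m)
    (hm : ∀ η : Conf N L, |gH (pS c) (ball p (R / 4)) η (fun S => cc i (S p))| ≤ m) :
    corJ c i p y ≤ ∑ w ∈ ball p R, ∑ w' ∈ (ball p R)ᶜ,
      2 * (c (w, w') + c (w', w)) * (if tnorm (w - p) ≤ R / 2 then 1 else m) *
        corJ c i w' y := by
  classical
  have hZ := Z_pos (N := N) hN c
  set Z : ℝ := ∫ S : Conf N L, Real.exp (pS c S) ∂(prior N L) with hZdef
  set D := sysJ hN hc i with hD
  have hcor : ∀ x z : Tor L, corJ c i x z = D.I (fun s => D.a (s x) * D.a (s z)) / Z := by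
    intro x z
    unfold corJ
    rw [← hZdef]
    congr 1
    exact (I_eq hN hc i (fun S => cc i (S x) * cc i (S z))).symm
  have hcp : Continuous fun S : Conf N L => cc i (S p) :=
    (continuous_cc i).comp (continuous_apply p)
  have hexit := D.exit (ball p R) (o := p) (z := y)
    (by simp only [ball, Finset.mem_filter, Finset.mem_univ, true_and, sub_self, tnorm_zero]
        exact hR.le)
    (by simp only [ball, Finset.mem_filter, Finset.mem_univ, true_and]
        exact not_le.mpr hy)
    (fun w => if tnorm (w - p) ≤ R / 2 then 1 else m)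
    (fun w _ => by
      split_ifs
      · exact zero_le_one
      · exact hm0)
    (fun w => if tnorm (w - p) ≤ R / 2 then ∅ else ball p (R / 4))
    (fun w _ => by
      split_ifs
      · exact Finset.empty_subset _
      · intro z hz
        simp only [ball, Finset.mem_filter, Finset.mem_univ, true_and] at hz ⊢
        linarith)
    (fun w _ => by
      split_ifs with h
      · exact Finset.notMem_empty w
      · simp only [ball, Finset.mem_filter, Finset.mem_univ, true_and]
        push Not at h ⊢
        linarith)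
    (fun w _ φ hφm hφ1 hφl => by
      have hφBM : FK.Sys.BM φ := ⟨hφm, 1, hφ1⟩
      by_cases h : tnorm (w - p) ≤ R / 2
      · simp only [if_pos h, one_mul]
        have h1 : |D.I (fun s => D.a (s p) * φ s)| ≤ D.I (fun s => |D.a (s p) * φ s|) := by
          unfold FK.Sys.I
          refine abs_integral_le_integral_abs.trans (le_of_eq ?_)
          refine integral_congr_ae (Filter.Eventually.of_forall fun S => ?_)
          simp only
          rw [abs_mul _ (D.wt S), abs_of_nonneg (D.wt_nonneg S)]
        refine h1.trans (D.I_mono ?_ ?_ fun s => ?_)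
        · have h2 := (D.BM_a p).mul hφBM
          exact ⟨h2.1.abs, h2.2.imp fun C hC s => by rw [abs_abs]; exact hC s⟩
        · exact ⟨hφm.abs, 1, fun s => by rw [abs_abs]; exact hφ1 s⟩
        · rw [abs_mul]
          exact mul_le_of_le_one_left (abs_nonneg _) (D.a1 _)
      · simp only [if_neg h] at hφl ⊢
        -- influence
        obtain ⟨η⟩ : Nonempty (Conf N L) := by
          have : Nonempty (Sph N) := by
            refine ⟨⟨EuclideanSpace.single i 1, ?_⟩⟩
            simp
          exact inferInstance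
        have h1 := gH_influence hN (continuous_pS c) (Finset.subset_univ (ball p (R / 4))) η
          hcp hφm 1 hφ1 hφl m hm
        unfold gH at h1
        simp only [splice_univ] at h1
        rw [← hZdef, abs_div, abs_of_pos hZ, ← mul_div_assoc, div_le_div_iff_of_pos_right hZ]
          at h1
        have h2 : D.I (fun s => D.a (s p) * φ s) =
            ∫ S, φ S * cc i (S p) * Real.exp (pS c S) ∂(prior N L) := by
          rw [hD, I_eq]
          refine integral_congr_ae (Filter.Eventually.of_forall fun S => ?_)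
          have h3 : (sysJ hN hc i).a (S p) = cc i (S p) := rfl
          simp only
          rw [h3]
          ring
        have h4 : D.I (fun s => |φ s|) =
            ∫ S, |φ S| * Real.exp (pS c S) ∂(prior N L) := by
          rw [hD, I_eq]
        rw [h2, h4]
        exact h1)
  rw [hcor]
  have h5 : ∑ w ∈ ball p R, ∑ w' ∈ (ball p R)ᶜ,
      2 * (c (w, w') + c (w', w)) * (if tnorm (w - p) ≤ R / 2 then 1 else m) *
        corJ c i w' y = (∑ w ∈ ball p R, ∑ w' ∈ (ball p R)ᶜ,
      2 * (c (w, w') + c (w', w)) * (if tnorm (w - p) ≤ R / 2 then 1 else m) *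
        D.I (fun s => D.a (s w') * D.a (s y))) / Z := by
    rw [Finset.sum_div]
    refine Finset.sum_congr rfl fun w _ => ?_
    rw [Finset.sum_div]
    refine Finset.sum_congr rfl fun w' _ => ?_
    rw [hcor, mul_div_assoc]
  rw [h5, div_le_div_iff_of_pos_right hZ]
  exact hexit

end Pool.Agent.H983R2.ONJ
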