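import Pool.Agent.H983R2.ONJ.Step
import Pool.Agent.H983R2.ONJ.Exit

/-! # Task FIN: exponential decay on the tori (helper269) -/

set_option autoImplicit false

noncomputable section

namespace Pool.Agent.H983R2.ONJ

open MeasureTheory Pool.Agent.H5R2.ON Pool.Agent.H717R2.ON3

namespace AuxFin269

open Filter Topology

theorem tnorm_le_L {L : ℕ} [NeZero L] (x : Tor L) : tnorm x ≤ L := by
  unfold tnorm
  have key : ∀ u : ZMod L, ((u.valMinAbs : ℤ) : ℝ) ^ 2 ≤ ((L : ℝ) / 2) ^ 2 := by
    intro u
    rw [← cast_sq_natAbs]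
    have h1 : u.valMinAbs.natAbs ≤ L / 2 := ZMod.natAbs_valMinAbs_le u
    have h2 : ((u.valMinAbs.natAbs : ℕ) : ℝ) ≤ (L : ℝ) / 2 :=
      (Nat.cast_le.2 h1).trans Nat.cast_div_le
    have h3 : (0 : ℝ) ≤ ((u.valMinAbs.natAbs : ℕ) : ℝ) := Nat.cast_nonneg _
    exact pow_le_pow_left₀ h3 h2 2
  rw [Real.sqrt_le_left (Nat.cast_nonneg L)]
  nlinarith [key x.1, key x.2, sq_nonneg (L : ℝ)]

/-- the choice of the scale -/
theorem exists_scale (C0 P a : ℝ) (ha : 0 < a) : ∃ R : ℝ, 4 ≤ R ∧
    P * (256 * C0 / R ^ 2 + R ^ 2 * Real.exp (-(a * R / 8))) ≤ 1 / 2 := by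
  have h1 : Tendsto (fun R : ℝ => R ^ 2 * Real.exp (-(a * R / 8))) atTop (𝓝 0) := by
    have h2 := Real.tendsto_pow_mul_exp_neg_atTop_nhds_zero 2
    have h3 : Tendsto (fun R : ℝ => a / 8 * R) atTop atTop :=
      tendsto_id.const_mul_atTop (by positivity)
    have h4 := (h2.comp h3).const_mul ((8 / a) ^ 2)
    rw [mul_zero] at h4
    refine h4.congr fun R => ?_
    simp only [Function.comp]
    have h5 : -(a / 8 * R) = -(a * R / 8) := by ring
    rw [h5, ← mul_assoc, ← mul_pow]
    congr 2
    field_simp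
  have h2 : Tendsto (fun R : ℝ => 256 * C0 / R ^ 2) atTop (𝓝 0) :=
    tendsto_const_nhds.div_atTop (tendsto_pow_atTop (by norm_num))
  have h3 := (h2.add h1).const_mul P
  rw [add_zero, mul_zero] at h3
  have h4 : ∀ᶠ R : ℝ in atTop,
      P * (256 * C0 / R ^ 2 + R ^ 2 * Real.exp (-(a * R / 8))) < 1 / 2 :=
    h3.eventually (gt_mem_nhds (by norm_num))
  obtain ⟨R, hR1, hR2⟩ := (h4.and (eventually_ge_atTop (4 : ℝ))).exists
  exact ⟨R, hR2, hR1.le⟩

/-- sums over translates -/
theorem sum_shift {L : ℕ} [NeZero L] (f : Tor L → ℝ) (w : Tor L) :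
    ∑ w' : Tor L, f (w' - w) = ∑ z : Tor L, f z :=
  (Equiv.subRight w).sum_comp f

end AuxFin269

open AuxFin269

theorem corJ_decay (N : ℕ) (hN : 3 ≤ N) (A a : ℝ) (hA : 0 ≤ A) (ha : 0 < a) :
    ∃ C b : ℝ, 0 < C ∧ 0 < b ∧ ∀ (L : ℕ) [NeZero L] (c : Tor L × Tor L → ℝ), ExpC A a c →
      ∀ (i : Fin N) (x y : Tor L), corJ c i x y ≤ C * Real.exp (-b * tnorm (x - y)) := by
  obtain ⟨C0, hC0, hMB⟩ := MBJ_decay N hN A a hA ha
  obtain ⟨K0, hK0, hK⟩ := card_ball_le
  obtain ⟨Kl, hKl0, hKl⟩ := lsum (a / 4) (by positivity)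
  have hN0 : N ≠ 0 := by omega
  obtain ⟨R, hR4, hR⟩ := exists_scale C0 (16 * A * Real.exp 1 * K0 * Kl) a ha
  have hR0 : 0 < R := by linarith
  obtain ⟨b, hb⟩ : ∃ b : ℝ, b = min (a / 2) (1 / R) := ⟨_, rfl⟩
  have hb0 : 0 < b := by rw [hb]; exact lt_min (by positivity) (by positivity)
  have hba : b ≤ a / 2 := by rw [hb]; exact min_le_left _ _
  have hbR : b * R ≤ 1 := by
    have h1 : b ≤ 1 / R := by rw [hb]; exact min_le_right _ _
    rwa [le_div_iff₀ hR0] at h1
  refine ⟨Real.exp 2, b, Real.exp_pos _, hb0, ?_⟩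
  intro L _ c hc i
  have hc0 : ∀ e, 0 ≤ c e := fun e => (hc e).1
  by_cases hL : (L : ℝ) ≤ 2 * R
  · intro x y
    have h1 := corJ_le_one hN0 c i x y
    have h2 : tnorm (x - y) ≤ 2 * R := (tnorm_le_L _).trans hL
    rw [← Real.exp_add]
    refine h1.trans (Real.one_le_exp ?_)
    nlinarith
  push Not at hL
  obtain ⟨m, hm⟩ : ∃ m : ℝ, m = C0 / (R / 4) ^ 4 := ⟨_, rfl⟩
  have hm0 : 0 ≤ m := by rw [hm]; positivity
  -- the maximum
  obtain ⟨q, -, hq⟩ := Finset.exists_max_image (Finset.univ : Finset (Tor L × Tor L))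
    (fun q => corJ c i q.1 q.2 * Real.exp (b * tnorm (q.1 - q.2))) ⟨(0, 0), Finset.mem_univ _⟩
  obtain ⟨M, hM⟩ : ∃ M : ℝ, M = corJ c i q.1 q.2 * Real.exp (b * tnorm (q.1 - q.2)) :=
    ⟨_, rfl⟩
  have hmax : ∀ x y : Tor L, corJ c i x y ≤ M * Real.exp (-(b * tnorm (x - y))) := by
    intro x y
    have h1 := hq (x, y) (Finset.mem_univ _)
    simp only at h1
    rw [← hM] at h1
    rw [Real.exp_neg, ← div_eq_mul_inv, le_div_iff₀ (Real.exp_pos _)]
    exact h1
  have hM0 : 0 ≤ M := by
    rw [hM]
    exact mul_nonneg (corJ_nonneg hN0 hc0 i _ _) (Real.exp_pos _).le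
  -- it is at most `e`
  have hMe : M ≤ Real.exp 1 := by
    obtain ⟨p, y⟩ := q
    simp only at hM
    by_cases hpy : tnorm (p - y) ≤ R
    · rw [hM]
      have h1 := corJ_le_one hN0 c i p y
      have h2 : Real.exp (b * tnorm (p - y)) ≤ Real.exp 1 := by
        refine Real.exp_le_exp.mpr ?_
        nlinarith
      have h3 := corJ_nonneg hN0 hc0 i p y
      have h4 := Real.exp_pos (b * tnorm (p - y))
      nlinarith
    · push Not at hpy
      have hyp : R < tnorm (y - p) := by rw [tnorm_sub_comm]; exact hpy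
      have hexit := corJ_exit hN0 hc0 i p y R m hR0 hyp hm0 (fun η => by
        rw [hm]
        exact hMB (R / 4) (by linarith) L (by linarith) c hc p η i)
      -- one term
      obtain ⟨g, hg⟩ : ∃ g : Tor L → ℝ, g = fun z => Real.exp (-(a / 4) * tnorm z) := ⟨_, rfl⟩
      have hg0 : ∀ z, 0 ≤ g z := fun z => by rw [hg]; exact (Real.exp_pos _).le
      have hgsum : ∑ z : Tor L, g z ≤ Kl := by
        refine (Finset.sum_le_sum fun z _ => ?_).trans (hKl L)
        rw [hg]
        simp only
        have h1 : (1 : ℝ) ≤ (1 + tnorm z) ^ 2 := by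
          have := tnorm_nonneg z
          nlinarith
        have h2 := Real.exp_pos (-(a / 4) * tnorm z)
        nlinarith
      have hterm : ∀ w ∈ ball p R, ∀ w' ∈ (ball p R)ᶜ,
          2 * (c (w, w') + c (w', w)) * (if tnorm (w - p) ≤ R / 2 then 1 else m) *
            corJ c i w' y * Real.exp (b * tnorm (p - y)) ≤
          4 * A * Real.exp 1 * M * ((m + Real.exp (-(a * R / 8))) * g (w' - w)) := by
        intro w hw w' hw'
        simp only [ball, Finset.mem_filter, Finset.mem_univ, true_and, Finset.mem_compl,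
          not_le] at hw hw'
        obtain ⟨t, ht⟩ : ∃ t : ℝ, t = tnorm (w' - w) := ⟨_, rfl⟩
        have ht0 : 0 ≤ t := by rw [ht]; exact tnorm_nonneg _
        -- the couplings
        have h1 : c (w, w') ≤ A * Real.exp (-a * t) := by rw [ht]; exact (hc (w, w')).2
        have h2 : c (w', w) ≤ A * Real.exp (-a * t) := by
          rw [ht, tnorm_sub_comm]; exact (hc (w', w)).2
        have h3 : 0 ≤ c (w, w') + c (w', w) := add_nonneg (hc0 _) (hc0 _)
        -- the factor
        obtain ⟨f, hf⟩ : ∃ f : ℝ, f = (if tnorm (w - p) ≤ R / 2 then 1 else m) := ⟨_, rfl⟩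
        rw [← hf]
        have hf0 : 0 ≤ f := by
          rw [hf]
          split_ifs
          · exact zero_le_one
          · exact hm0
        have hfg : f * Real.exp (-(a / 2) * t) ≤
            (m + Real.exp (-(a * R / 8))) * Real.exp (-(a / 4) * t) := by
          by_cases h : tnorm (w - p) ≤ R / 2
          · rw [hf, if_pos h, one_mul]
            have h4 : R / 2 ≤ t := by
              have := tnorm_add_le (w' - w) (w - p)
              rw [sub_add_sub_cancel] at this
              rw [ht]
              linarith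
            have h5 : Real.exp (-(a / 2) * t) ≤
                Real.exp (-(a * R / 8)) * Real.exp (-(a / 4) * t) := by
              rw [← Real.exp_add]
              refine Real.exp_le_exp.mpr ?_
              nlinarith
            refine h5.trans (mul_le_mul_of_nonneg_right ?_ (Real.exp_pos _).le)
            linarith
          · rw [hf, if_neg h]
            refine mul_le_mul ?_ ?_ (Real.exp_pos _).le ?_
            · have := Real.exp_pos (-(a * R / 8))
              linarith
            · refine Real.exp_le_exp.mpr ?_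
              nlinarith
            · have := Real.exp_pos (-(a * R / 8))
              linarith
        -- the triangle inequality
        have h6 : tnorm (p - y) ≤ R + t + tnorm (w' - y) := by
          have e1 := tnorm_add_le (p - w) (w - y)
          have e2 := tnorm_add_le (w - w') (w' - y)
          rw [sub_add_sub_cancel] at e1 e2
          rw [tnorm_sub_comm p w] at e1
          rw [tnorm_sub_comm w w'] at e2
          rw [ht]
          linarith
        have h7 : Real.exp (b * tnorm (p - y)) ≤
            Real.exp 1 * Real.exp ((a / 2) * t) * Real.exp (b * tnorm (w' - y)) := by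
          rw [← Real.exp_add, ← Real.exp_add]
          refine Real.exp_le_exp.mpr ?_
          nlinarith
        have h8 := hmax w' y
        have h9 := corJ_nonneg hN0 hc0 i w' y
        have h10 : corJ c i w' y * Real.exp (b * tnorm (p - y)) ≤
            M * (Real.exp 1 * Real.exp ((a / 2) * t)) := by
          calc corJ c i w' y * Real.exp (b * tnorm (p - y))
              ≤ (M * Real.exp (-(b * tnorm (w' - y)))) *
                (Real.exp 1 * Real.exp ((a / 2) * t) * Real.exp (b * tnorm (w' - y))) :=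
                mul_le_mul h8 h7 (Real.exp_pos _).le (by positivity)
            _ = M * (Real.exp 1 * Real.exp ((a / 2) * t)) *
                (Real.exp (-(b * tnorm (w' - y))) * Real.exp (b * tnorm (w' - y))) := by ring
            _ = M * (Real.exp 1 * Real.exp ((a / 2) * t)) := by
                have h12 : Real.exp (-(b * tnorm (w' - y))) * Real.exp (b * tnorm (w' - y)) = 1 := by
                  rw [← Real.exp_add, neg_add_cancel, Real.exp_zero]
                rw [h12, mul_one]
        have hgw : g (w' - w) = Real.exp (-(a / 4) * t) := by rw [hg, ht]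
        rw [hgw]
        have h11 : Real.exp (-a * t) * Real.exp ((a / 2) * t) = Real.exp (-(a / 2) * t) := by
          rw [← Real.exp_add]
          congr 1
          ring
        calc 2 * (c (w, w') + c (w', w)) * f * corJ c i w' y * Real.exp (b * tnorm (p - y))
            = (2 * (c (w, w') + c (w', w)) * f) *
              (corJ c i w' y * Real.exp (b * tnorm (p - y))) := by ring
          _ ≤ (4 * (A * Real.exp (-a * t)) * f) *
              (M * (Real.exp 1 * Real.exp ((a / 2) * t))) := by
              refine mul_le_mul ?_ h10 (mul_nonneg h9 (Real.exp_pos _).le) (by positivity)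
              refine mul_le_mul_of_nonneg_right ?_ hf0
              linarith
          _ = 4 * A * Real.exp 1 * M *
              (f * (Real.exp (-a * t) * Real.exp ((a / 2) * t))) := by ring
          _ = 4 * A * Real.exp 1 * M * (f * Real.exp (-(a / 2) * t)) := by rw [h11]
          _ ≤ 4 * A * Real.exp 1 * M *
              ((m + Real.exp (-(a * R / 8))) * Real.exp (-(a / 4) * t)) :=
              mul_le_mul_of_nonneg_left hfg (by positivity)
      -- the sum
      have hsum : M ≤ 4 * A * Real.exp 1 * M *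
          ((m + Real.exp (-(a * R / 8))) * (K0 * (1 + R) ^ 2 * Kl)) := by
        have hmE : 0 ≤ m + Real.exp (-(a * R / 8)) := by
          have := Real.exp_pos (-(a * R / 8))
          linarith
        calc M = corJ c i p y * Real.exp (b * tnorm (p - y)) := hM
          _ ≤ (∑ w ∈ ball p R, ∑ w' ∈ (ball p R)ᶜ,
              2 * (c (w, w') + c (w', w)) * (if tnorm (w - p) ≤ R / 2 then 1 else m) *
              corJ c i w' y) * Real.exp (b * tnorm (p - y)) :=
              mul_le_mul_of_nonneg_right hexit (Real.exp_pos _).le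
          _ = ∑ w ∈ ball p R, ∑ w' ∈ (ball p R)ᶜ,
              2 * (c (w, w') + c (w', w)) * (if tnorm (w - p) ≤ R / 2 then 1 else m) *
              corJ c i w' y * Real.exp (b * tnorm (p - y)) := by
              rw [Finset.sum_mul]
              exact Finset.sum_congr rfl fun w _ => Finset.sum_mul _ _ _
          _ ≤ ∑ w ∈ ball p R, ∑ w' ∈ (ball p R)ᶜ,
              4 * A * Real.exp 1 * M * ((m + Real.exp (-(a * R / 8))) * g (w' - w)) :=
              Finset.sum_le_sum fun w hw => Finset.sum_le_sum fun w' hw' => hterm w hw w' hw'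
          _ ≤ ∑ w ∈ ball p R,
              4 * A * Real.exp 1 * M * ((m + Real.exp (-(a * R / 8))) * Kl) := by
              refine Finset.sum_le_sum fun w _ => ?_
              rw [← Finset.mul_sum, ← Finset.mul_sum]
              refine mul_le_mul_of_nonneg_left (mul_le_mul_of_nonneg_left ?_ hmE) (by positivity)
              calc ∑ w' ∈ (ball p R)ᶜ, g (w' - w) ≤ ∑ w' : Tor L, g (w' - w) :=
                    Finset.sum_le_univ_sum_of_nonneg fun w' => hg0 _
                _ = ∑ z : Tor L, g z := sum_shift g w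
                _ ≤ Kl := hgsum
          _ = ((ball p R).card : ℝ) *
              (4 * A * Real.exp 1 * M * ((m + Real.exp (-(a * R / 8))) * Kl)) := by
              rw [Finset.sum_const, nsmul_eq_mul]
          _ ≤ (K0 * (1 + R) ^ 2) *
              (4 * A * Real.exp 1 * M * ((m + Real.exp (-(a * R / 8))) * Kl)) := by
              refine mul_le_mul_of_nonneg_right (hK L p R hR0.le) (by positivity)
          _ = _ := by ring
      have hcoef : 4 * A * Real.exp 1 *
          ((m + Real.exp (-(a * R / 8))) * (K0 * (1 + R) ^ 2 * Kl)) ≤ 1 / 2 := by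
        refine le_trans ?_ hR
        have hE := Real.exp_pos (-(a * R / 8))
        have h1 : (1 + R) ^ 2 ≤ 4 * R ^ 2 := by nlinarith
        have h2 : 4 * A * Real.exp 1 *
            ((m + Real.exp (-(a * R / 8))) * (K0 * (1 + R) ^ 2 * Kl)) ≤
            4 * A * Real.exp 1 *
            ((m + Real.exp (-(a * R / 8))) * (K0 * (4 * R ^ 2) * Kl)) := by
          gcongr
        refine h2.trans (le_of_eq ?_)
        have h3 : m * R ^ 2 = 256 * C0 / R ^ 2 := by
          rw [hm]
          field_simp
          norm_num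
        calc 4 * A * Real.exp 1 * ((m + Real.exp (-(a * R / 8))) * (K0 * (4 * R ^ 2) * Kl))
            = 16 * A * Real.exp 1 * K0 * Kl * (m * R ^ 2 + R ^ 2 * Real.exp (-(a * R / 8))) := by
              ring
          _ = _ := by rw [h3]
      have hfin : M ≤ 1 / 2 * M := by
        calc M ≤ 4 * A * Real.exp 1 * M *
              ((m + Real.exp (-(a * R / 8))) * (K0 * (1 + R) ^ 2 * Kl)) := hsum
          _ = (4 * A * Real.exp 1 *
              ((m + Real.exp (-(a * R / 8))) * (K0 * (1 + R) ^ 2 * Kl))) * M := by ring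
          _ ≤ 1 / 2 * M := mul_le_mul_of_nonneg_right hcoef hM0
      have := Real.exp_pos 1
      linarith
  intro x y
  refine (hmax x y).trans ?_
  rw [neg_mul]
  refine mul_le_mul_of_nonneg_right (hMe.trans ?_) (Real.exp_pos _).le
  exact Real.exp_le_exp.mpr (by norm_num)

theorem torusJ_decay (N : ℕ) (hN : 3 ≤ N) (A a : ℝ) (hA : 0 ≤ A) (ha : 0 < a) :
    ∃ C b : ℝ, 0 < C ∧ 0 < b ∧ ∀ (L : ℕ) [NeZero L] (c : Tor L × Tor L → ℝ), ExpC A a c →
      ∀ (x y : Tor L),
      |(∫ S : Conf N L, inner ℝ (S x : EuclideanSpace ℝ (Fin N)) (S y) * Real.exp (pS c S)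
          ∂(prior N L)) / ∫ S : Conf N L, Real.exp (pS c S) ∂(prior N L)| ≤
        C * Real.exp (-b * tnorm (x - y)) := by
  obtain ⟨C, b, hC, hb, h⟩ := corJ_decay N hN A a hA ha
  have hN0 : N ≠ 0 := by omega
  have hNpos : (0 : ℝ) < N := by exact_mod_cast Nat.pos_of_ne_zero hN0
  refine ⟨N * C, b, by positivity, hb, ?_⟩
  intro L _ c hc x y
  have hc0 : ∀ e, 0 ≤ c e := fun e => (hc e).1
  have hcont : ∀ (i : Fin N) (z : Tor L), Continuous fun S : Conf N L => cc i (S z) := by
    intro i z
    unfold cc
    fun_prop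
  have hint : ∀ i : Fin N, Integrable (fun S : Conf N L =>
      cc i (S x) * cc i (S y) * Real.exp (pS c S)) (prior N L) := fun i =>
    integrable_prior N L (((hcont i x).mul (hcont i y)).mul
      (Real.continuous_exp.comp (continuous_pS c)))
  have heq : (∫ S : Conf N L, inner ℝ (S x : EuclideanSpace ℝ (Fin N)) (S y) *
      Real.exp (pS c S) ∂(prior N L)) / ∫ S : Conf N L, Real.exp (pS c S) ∂(prior N L) =
      ∑ i : Fin N, corJ c i x y := by
    unfold corJ
    rw [← Finset.sum_div, ← integral_finsetSum _ fun i _ => hint i]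
    congr 1
    refine integral_congr_ae (Filter.Eventually.of_forall fun S => ?_)
    simp only
    rw [← Finset.sum_mul, PiLp.inner_apply]
    congr 1
    refine Finset.sum_congr rfl fun j _ => ?_
    simp only [RCLike.inner_apply, conj_trivial, cc]
    ring
  rw [heq, abs_of_nonneg (Finset.sum_nonneg fun i _ => corJ_nonneg hN0 hc0 i x y)]
  calc ∑ i : Fin N, corJ c i x y ≤ ∑ _i : Fin N, C * Real.exp (-b * tnorm (x - y)) :=
        Finset.sum_le_sum fun i _ => h L c hc i x y
    _ = N * C * Real.exp (-b * tnorm (x - y)) := by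
        rw [Finset.sum_const, Finset.card_univ, Fintype.card_fin, nsmul_eq_mul]
        ring

end Pool.Agent.H983R2.ONJ
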